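import Pool.Agent.P.MP_c9edc3_al.Adequate

set_option autoImplicit false

open Pool.Agent.P.MP_c9edc3_al

/-- If the idempotents of `S` commute and every element is `R*`-related and `L*`-related to an
idempotent of `S¹` (adequate semigroups, in particular inverse semigroups; cancellative
semigroups), residual finiteness passes from `S` to `Inn(S)`. -/
theorem Pool.Agent.Results.MP_c9edc3_al.Adequate.result (S : Type) [Semigroup S]
    (hc : ∀ e f : S, e * e = e → f * f = f → e * f = f * e)
    (hR : ∀ a : S, ∃ e : WithOne S, e * e = e ∧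
      ∀ x y : WithOne S, x * (a : WithOne S) = y * (a : WithOne S) ↔ x * e = y * e)
    (hL : ∀ a : S, ∃ e : WithOne S, e * e = e ∧
      ∀ x y : WithOne S, (a : WithOne S) * x = (a : WithOne S) * y ↔ e * x = e * y)
    (hS : ResFin S) : ResFin (Inn1 S) :=
  resFin_inn1 hc hR hL hS

/-- The case of inverse semigroups (regular, with commuting idempotents). -/
theorem Pool.Agent.Results.MP_c9edc3_al.Adequate.inverse_case (S : Type) [Semigroup S]
    (hc : ∀ e f : S, e * e = e → f * f = f → e * f = f * e)
    (hreg : ∀ a : S, ∃ b : S, a * b * a = a) (hS : ResFin S) : ResFin (Inn1 S) := by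
  refine Pool.Agent.Results.MP_c9edc3_al.Adequate.result S hc (fun a => ?_) (fun a => ?_) hS
  · obtain ⟨b, hb⟩ := hreg a
    have h : (a : WithOne S) * b * a = a := by rw [← WithOne.coe_mul, ← WithOne.coe_mul, hb]
    refine ⟨a * b, by rw [← mul_assoc, h], fun x y => ⟨fun H => ?_, fun H => ?_⟩⟩
    · rw [← mul_assoc, H, mul_assoc]
    · rw [← h, ← mul_assoc, H, mul_assoc]
  · obtain ⟨b, hb⟩ := hreg a
    have h : (a : WithOne S) * (b * a) = a := by
      rw [← mul_assoc, ← WithOne.coe_mul, ← WithOne.coe_mul, hb]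
    refine ⟨b * a, by rw [mul_assoc, h], fun x y => ⟨fun H => ?_, fun H => ?_⟩⟩
    · rw [mul_assoc, H, mul_assoc]
    · rw [← h, mul_assoc, H, ← mul_assoc]

/-- For a monoid, `Inn1` is the monoid `Inn` of the counterexample hand-in. -/
theorem Pool.Agent.Results.MP_c9edc3_al.Adequate.monoid_case (M : Type) [Monoid M] :
    Inn1 M = Inn M :=
  inn1_eq_inn M
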