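import Pool.Agent.P.MP_c9edc3_al.Main

set_option autoImplicit false

open Pool.Agent.P.MP_c9edc3_al

theorem Pool.Agent.Results.MP_c9edc3_al.Counterexample.result :
    ∃ (S : Type) (_ : Monoid S),
      (∃ G : Finset S, Subsemigroup.closure (G : Set S) = ⊤) ∧ ResFin S ∧ ¬ ResFin (Inn S) :=
  Pool.Agent.P.MP_c9edc3_al.main
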